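import Mathlib
import Pool.Agent.H86.CMLib.TH118.IS.Split

/-!
# Ranks and squares of the averages
-/

set_option linter.unusedSectionVars false

namespace Pool.Agent.TH118.IS

open Module Pool.Agent.H204R3.SP Pool.Agent.H204R3.GP Pool.Agent.W522.U Pool.Agent.TH118.CR
open Pool.Agent.TH118.CU

variable {K : Type} [Field K] [CharZero K] {X : Type} [AddCommGroup X] [Module K X]
  [FiniteDimensional K X] {Γ : Type} [Group Γ] {R : Representation K Γ X} {χ : Γ →* K}

section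

variable {γ : Γ} {U : Submodule K X} {k : ℕ} (hk : 0 < k) (hγ : R γ ^ k = 1)
  (hU : ∀ u ∈ U, R γ u ∈ U) (hU' : ∀ u ∈ U, R γ⁻¹ u ∈ U)
  {T : End K X} (hT : ∀ u ∈ U, T u ∈ U) {ν : K} (hν : ν ^ k = 1) (hν0 : ν ≠ 0)

include hγ hU hU' hT hν hν0 in
theorem avg_maps {α : K} {u : X} (hu : u ∈ eig R γ U α) :
    avg R γ k ν T u ∈ eig R γ U (α * ν) := by
  rw [mem_eig] at hu ⊢
  refine ⟨avg_stable hU hU' hT u hu.1, ?_⟩
  rw [avg_semi hγ hν hν0, hu.2, map_smul, smul_smul, mul_comm]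

include hγ hU hU' hT hν hν0 in
theorem part_map_le {B : Set K} {a : K}
    (h : ∀ α ∈ B, eig R γ U α ≠ ⊥ → eig R γ U (α * ν) ≠ ⊥ → α = a) :
    (part R γ U B).map (avg R γ k ν T) ≤ (eig R γ U a).map (avg R γ k ν T) := by
  rw [part, Submodule.map_iSup, iSup_le_iff]
  rintro ⟨α, hα⟩ _ ⟨u, hu, rfl⟩
  by_cases h0 : avg R γ k ν T u = 0
  · rw [h0]
    exact Submodule.zero_mem _
  have h1 : eig R γ U α ≠ ⊥ := by
    intro h2
    apply h0
    have h3 : u ∈ eig R γ U α := hu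
    rw [h2, Submodule.mem_bot] at h3
    rw [h3, map_zero]
  have h2 : eig R γ U (α * ν) ≠ ⊥ := by
    intro h2
    apply h0
    have h3 := avg_maps hγ hU hU' hT hν hν0 hu
    rwa [h2, Submodule.mem_bot] at h3
  have h3 := h α hα h1 h2
  subst h3
  exact Submodule.mem_map_of_mem hu

include hγ hU hU' hT hν hν0 in
theorem finrank_part {B : Set K} {a : K}
    (h : ∀ α ∈ B, eig R γ U α ≠ ⊥ → eig R γ U (α * ν) ≠ ⊥ → α = a)
    (h1 : finrank K (eig R γ U a) ≤ 1 ∨ finrank K (eig R γ U (a * ν)) ≤ 1) :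
    finrank K ((part R γ U B).map (avg R γ k ν T)) ≤ 1 := by
  refine le_trans (Submodule.finrank_mono (part_map_le hγ hU hU' hT hν hν0 h)) ?_
  rcases h1 with h1 | h1
  · exact le_trans (Submodule.finrank_map_le _ _) h1
  · refine le_trans (Submodule.finrank_mono ?_) h1
    rintro _ ⟨u, hu, rfl⟩
    exact avg_maps hγ hU hU' hT hν hν0 hu

theorem part_univ [IsAlgClosed K] (hk : 0 < k) (hγ : R γ ^ k = 1) (hU : ∀ u ∈ U, R γ u ∈ U) :
    part R γ U Set.univ = U := by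
  refine le_antisymm part_le fun u hu => ?_
  exact mem_part hk hγ hU hu fun β hβ => absurd (Set.mem_univ β) hβ

include hγ hU hU' hT hν hν0 in
/-- If there are no chains of length three the square of the average is zero. -/
theorem sq_zero_of_noChain [IsAlgClosed K] (hk : 0 < k)
    (h : ∀ α, eig R γ U α ≠ ⊥ → eig R γ U (α * ν) ≠ ⊥ → eig R γ U (α * ν * ν) = ⊥) :
    ∀ u ∈ U, avg R γ k ν T (avg R γ k ν T u) = 0 := by
  intro u hu
  rw [← part_univ hk hγ hU, part] at hu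
  induction hu using Submodule.iSup_induction' with
  | mem α u hu =>
    by_cases h0 : avg R γ k ν T u = 0
    · rw [h0, map_zero]
    have h1 : eig R γ U α ≠ ⊥ := by
      intro h2
      apply h0
      rw [h2, Submodule.mem_bot] at hu
      rw [hu, map_zero]
    have h3 := avg_maps hγ hU hU' hT hν hν0 hu
    have h2 : eig R γ U (α * ν) ≠ ⊥ := by
      intro h2
      apply h0
      rwa [h2, Submodule.mem_bot] at h3
    have h4 := avg_maps hγ hU hU' hT hν hν0 h3
    rwa [h α h1 h2, Submodule.mem_bot] at h4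
  | zero => rw [map_zero, map_zero]
  | add u v _ _ h1 h2 => rw [map_add, map_add, h1, h2, add_zero]

end

/-- The absence of chains for the inverse ratio. -/
theorem noChain_inv {γ : Γ} {U : Submodule K X} {ν : K} (hν0 : ν ≠ 0)
    (h : ∀ α, eig R γ U α ≠ ⊥ → eig R γ U (α * ν) ≠ ⊥ → eig R γ U (α * ν * ν) = ⊥) :
    ∀ α, eig R γ U α ≠ ⊥ → eig R γ U (α * ν⁻¹) ≠ ⊥ → eig R γ U (α * ν⁻¹ * ν⁻¹) = ⊥ := by
  intro α h1 h2
  by_contra h3
  apply h1
  have h4 := h (α * ν⁻¹ * ν⁻¹) h3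
  rw [inv_mul_cancel_right₀ hν0, inv_mul_cancel_right₀ hν0] at h4
  exact h4 h2

end Pool.Agent.TH118.IS
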