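import Mathlib
import Pool.Agent.H86.CMLib.TH118.IS.Rank

/-!
# Nilpotent elements of rank one from isolated eigenvalue ratios
-/

set_option linter.unusedSectionVars false

namespace Pool.Agent.TH118.IS

open Module Pool.Agent.H204R3.SP Pool.Agent.H204R3.GP Pool.Agent.W522.U Pool.Agent.TH118.CR
open Pool.Agent.TH118.CU

variable {K : Type} [Field K] [CharZero K] {X : Type} [AddCommGroup X] [Module K X]
  [FiniteDimensional K X] {Γ : Type} [Group Γ] {R : Representation K Γ X} {χ : Γ →* K}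

/-- The stabilizer of a subspace. -/
def stab (R : Representation K Γ X) (U : Submodule K X) : Subgroup Γ where
  carrier := {g | (∀ u ∈ U, R g u ∈ U) ∧ ∀ u ∈ U, R g⁻¹ u ∈ U}
  one_mem' := by
    refine ⟨fun u hu => ?_, fun u hu => ?_⟩
    · rwa [map_one, Module.End.one_apply]
    · rwa [inv_one, map_one, Module.End.one_apply]
  mul_mem' := by
    intro g h hg hh
    refine ⟨fun u hu => ?_, fun u hu => ?_⟩
    · rw [map_mul, Module.End.mul_apply]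
      exact hg.1 _ (hh.1 u hu)
    · rw [mul_inv_rev, map_mul, Module.End.mul_apply]
      exact hh.2 _ (hg.2 u hu)
  inv_mem' := by
    intro g hg
    refine ⟨hg.2, fun u hu => ?_⟩
    rw [inv_inv]
    exact hg.1 u hu

theorem stab_fi {U : Submodule K X} (hU : Pot R U) : (stab R U).FiniteIndex := by
  obtain ⟨Δ, hΔ, h⟩ := hU
  refine Subgroup.finiteIndex_of_le (H := Δ) fun g hg => ?_
  exact ⟨fun u hu => h g hg u hu, fun u hu => h g⁻¹ (Δ.inv_mem hg) u hu⟩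

theorem si_sub {U : Submodule K X} (hU : SI R U) (Δ : Subgroup Γ) (hΔ : Δ.FiniteIndex) :
    SI (R.comp Δ.subtype : Representation K Δ X) U := by
  refine ⟨hU.1, ?_, fun W hW hP => hU.2.2 W hW ?_⟩
  · obtain ⟨Δ', hΔ', h⟩ := hU.2.1
    exact ⟨Δ'.subgroupOf Δ, inferInstance, fun g hg u hu =>
      h g.1 (Subgroup.mem_subgroupOf.1 hg) u hu⟩
  · obtain ⟨Δ', hΔ', h⟩ := hP
    refine ⟨Δ'.map Δ.subtype, fi_map hΔ Δ' hΔ', ?_⟩
    rintro _ ⟨g, hg, rfl⟩ u hu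
    exact h g hg u hu

/-- The main lemma, without the condition that the group preserves the subspace. -/
theorem split' [IsAlgClosed K] {U : Submodule K X} (hU : SI R U)
    (L : Submodule K (End K X)) (hconj : ∀ g : Γ, ∀ Y ∈ L, R g * Y * R g⁻¹ ∈ L)
    (hLU : ∀ Y ∈ L, ∀ u ∈ U, Y u ∈ U) (hns : ∃ Y ∈ L, ¬∃ a : K, ∀ u ∈ U, Y u = a • u)
    {γ : Γ} {k : ℕ} (hk : 0 < k) (hγ : R γ ^ k = 1) (hγU : ∀ u ∈ U, R γ u ∈ U)
    (hγU' : ∀ u ∈ U, R γ⁻¹ u ∈ U) (A : Set K)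
    (hA : ∃ α ∈ A, eig R γ U α ≠ ⊥) (hB : ∃ β ∉ A, eig R γ U β ≠ ⊥)
    (hline : ∀ α ∈ A, ∀ β ∉ A, eig R γ U α ≠ ⊥ → eig R γ U β ≠ ⊥ → ∀ T : End K X,
      (∀ u ∈ U, T u ∈ U) → ∀ P : Submodule K X, (P = part R γ U A ∨ P = part R γ U Aᶜ) →
      finrank K (P.map (avg R γ k (β * α⁻¹) T)) ≤ 1 ∧
      finrank K (P.map (avg R γ k (α * β⁻¹) T)) ≤ 1) :
    ∃ α ∈ A, ∃ β ∉ A, eig R γ U α ≠ ⊥ ∧ eig R γ U β ≠ ⊥ ∧ ∃ Y ∈ L,
      (∃ u ∈ U, avg R γ k (β * α⁻¹) Y u ≠ 0) ∨ (∃ u ∈ U, avg R γ k (α * β⁻¹) Y u ≠ 0) := by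
  let Δ := stab R U
  let γ' : Δ := ⟨γ, hγU, hγU'⟩
  exact split (R := (R.comp Δ.subtype : Representation K Δ X)) (γ := γ')
    (si_sub hU Δ (stab_fi hU.2.1)) (fun g => g.2.1) L (fun g => hconj g.1) hLU hns hk hγ A hA hB
    hline

theorem inv_stable {γ : Γ} {k : ℕ} (hk : 0 < k) (hγ : R γ ^ k = 1) {U : Submodule K X}
    (hU : ∀ u ∈ U, R γ u ∈ U) : ∀ u ∈ U, R γ⁻¹ u ∈ U := by
  intro u hu
  have h1 : ∀ t : ℕ, R (γ ^ t) u ∈ U := by
    intro t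
    induction t with
    | zero => simpa using hu
    | succ t ih =>
      rw [pow_succ', map_mul, Module.End.mul_apply]
      exact hU _ ih
  have h2 : R γ (R (γ ^ (k - 1)) u) = u := by
    rw [← Module.End.mul_apply, ← map_mul, ← pow_succ', Nat.sub_add_cancel hk, map_pow, hγ]
    rfl
  have h3 := Rinv (R := R) γ (R (γ ^ (k - 1)) u)
  rw [h2] at h3
  rw [h3]
  exact h1 _

/-- Isolated ratios give a nilpotent element of the Lie algebra, of rank one on `E i`. -/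
theorem iso_N [IsAlgClosed K] {I : Type} (E : I → Submodule K X) (hE : ⨆ j, E j = ⊤)
    (hst : ∀ j, ∀ Y ∈ lieT R χ, ∀ u ∈ E j, Y u ∈ E j) {γ : Γ} {k : ℕ} (hk : 0 < k)
    (hγ : R γ ^ k = 1) (hγE : ∀ j, ∀ u ∈ E j, R γ u ∈ E j) (i : I) (hSI : SI R (E i))
    (hns : ∃ Y ∈ lieT R χ, ¬∃ a : K, ∀ u ∈ E i, Y u = a • u) (A : Set K)
    (hA : ∃ α ∈ A, eig R γ (E i) α ≠ ⊥) (hB : ∃ β ∉ A, eig R γ (E i) β ≠ ⊥)
    (h1 : ∀ α ∈ A, ∀ β ∉ A, eig R γ (E i) α ≠ ⊥ → eig R γ (E i) β ≠ ⊥ →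
      (finrank K (eig R γ (E i) α) = 1 ∨ finrank K (eig R γ (E i) β) = 1) ∧
      (∀ α', eig R γ (E i) α' ≠ ⊥ → eig R γ (E i) (α' * (β * α⁻¹)) ≠ ⊥ → α' = α) ∧
      ∀ j α', eig R γ (E j) α' ≠ ⊥ → eig R γ (E j) (α' * (β * α⁻¹)) ≠ ⊥ →
        eig R γ (E j) (α' * (β * α⁻¹) * (β * α⁻¹)) = ⊥) :
    ∃ N ∈ lieT R χ, N * N = 0 ∧ finrank K ((E i).map N) = 1 := by
  have hγE' : ∀ j, ∀ u ∈ E j, R γ⁻¹ u ∈ E j := fun j => inv_stable hk hγ (hγE j)
  -- the rank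
  have hrk : ∀ α ∈ A, ∀ β ∉ A, eig R γ (E i) α ≠ ⊥ → eig R γ (E i) β ≠ ⊥ → ∀ T : End K X,
      (∀ u ∈ E i, T u ∈ E i) → ∀ B : Set K,
      finrank K ((part R γ (E i) B).map (avg R γ k (β * α⁻¹) T)) ≤ 1 ∧
      finrank K ((part R γ (E i) B).map (avg R γ k (α * β⁻¹) T)) ≤ 1 := by
    intro α hα β hβ hα0 hβ0 T hT B
    obtain ⟨hl, huniq, -⟩ := h1 α hα β hβ hα0 hβ0
    have hα1 := eig_ne hα0
    have hβ1 := eig_ne hβ0
    have hαk := eig_root hγ hα0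
    have hβk := eig_root hγ hβ0
    have e1 : α * (β * α⁻¹) = β := by field_simp
    have e2 : β * (α * β⁻¹) = α := by field_simp
    constructor
    · refine finrank_part hγ (hγE i) (hγE' i) hT (by rw [mul_pow, inv_pow, hαk, hβk, inv_one, mul_one])
        (mul_ne_zero hβ1 (inv_ne_zero hα1)) (a := α) (fun α' _ h2 h3 => huniq α' h2 h3) ?_
      rw [e1]
      rcases hl with h | h
      · exact Or.inl h.le
      · exact Or.inr h.le
    · refine finrank_part hγ (hγE i) (hγE' i) hT (by rw [mul_pow, inv_pow, hαk, hβk, inv_one, mul_one])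
        (mul_ne_zero hα1 (inv_ne_zero hβ1)) (a := β) (fun α' _ h2 h3 => ?_) ?_
      · have h4 := huniq (α' * (α * β⁻¹)) h3 (by
          have e3 : α' * (α * β⁻¹) * (β * α⁻¹) = α' := by field_simp
          rwa [e3])
        have e4 : α' = α' * (α * β⁻¹) * (β * α⁻¹) := by field_simp
        rw [e4, h4, e1]
      · rw [e2]
        rcases hl with h | h
        · exact Or.inr h.le
        · exact Or.inl h.le
  obtain ⟨α, hα, β, hβ, hα0, hβ0, Y, hY, hor⟩ := split' hSI (lieT R χ)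
    (fun g Y hY => lieT_conj R χ g hY) (hst i) hns hk hγ (hγE i) (hγE' i) A hA hB
    (fun α hα β hβ h2 h3 T hT P hP => by
      rcases hP with rfl | rfl
      · exact hrk α hα β hβ h2 h3 T hT A
      · exact hrk α hα β hβ h2 h3 T hT Aᶜ)
  have hα1 := eig_ne hα0
  have hβ1 := eig_ne hβ0
  have hαk := eig_root hγ hα0
  have hβk := eig_root hγ hβ0
  have hU := part_univ hk hγ (hγE i)
  have hch := fun j => (h1 α hα β hβ hα0 hβ0).2.2 j
  have hsq : ∀ ν : K, ν ^ k = 1 → ν ≠ 0 → (∀ j α', eig R γ (E j) α' ≠ ⊥ →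
      eig R γ (E j) (α' * ν) ≠ ⊥ → eig R γ (E j) (α' * ν * ν) = ⊥) →
      avg R γ k ν Y * avg R γ k ν Y = 0 := by
    intro ν h2 h3 h4
    rw [← LinearMap.ker_eq_top, eq_top_iff, ← hE, iSup_le_iff]
    intro j u hu
    rw [LinearMap.mem_ker, Module.End.mul_apply]
    exact sq_zero_of_noChain hγ (hγE j) (hγE' j) (hst j Y hY) h2 h3 hk (h4 j) u hu
  have hone : ∀ ν : K, finrank K ((part R γ (E i) Set.univ).map (avg R γ k ν Y)) ≤ 1 →
      (∃ u ∈ E i, avg R γ k ν Y u ≠ 0) → finrank K ((E i).map (avg R γ k ν Y)) = 1 := by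
    intro ν h2 h3
    rw [hU] at h2
    obtain ⟨u, hu, hu0⟩ := h3
    refine le_antisymm h2 ?_
    rw [Nat.one_le_iff_ne_zero, ne_eq, Submodule.finrank_eq_zero]
    intro h4
    apply hu0
    have h5 : avg R γ k ν Y u ∈ (E i).map (avg R γ k ν Y) := Submodule.mem_map_of_mem hu
    rwa [h4, Submodule.mem_bot] at h5
  rcases hor with hor | hor
  · exact ⟨_, avg_mem γ k _ hY, hsq _ (by rw [mul_pow, inv_pow, hαk, hβk, inv_one, mul_one])
      (mul_ne_zero hβ1 (inv_ne_zero hα1)) hch,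
      hone _ (hrk α hα β hβ hα0 hβ0 Y (hst i Y hY) Set.univ).1 hor⟩
  · refine ⟨_, avg_mem γ k _ hY, hsq _ (by rw [mul_pow, inv_pow, hαk, hβk, inv_one, mul_one])
      (mul_ne_zero hα1 (inv_ne_zero hβ1)) ?_,
      hone _ (hrk α hα β hβ hα0 hβ0 Y (hst i Y hY) Set.univ).2 hor⟩
    intro j
    have h2 := noChain_inv (mul_ne_zero hβ1 (inv_ne_zero hα1)) (hch j)
    rwa [mul_inv, inv_inv, mul_comm β⁻¹] at h2

end Pool.Agent.TH118.IS
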