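import Mathlib
import Pool.Agent.H86.CMLib.TH118.IS.Four

/-!
# Tate classes and isolated eigenvalue ratios: types I and II
-/

set_option linter.unusedSectionVars false

namespace Pool.Agent.TH118.IS

open Module Pool.Agent.H204R3.SP Pool.Agent.H204R3.GP Pool.Agent.W522.U Pool.Agent.TH118.WC
open Pool.Agent.TH118.CR Pool.Agent.TH118.CU Pool.Agent.W529.Ta Pool.Agent.W528.Odd
open Pool.Agent.W528.Tor (AltDual)

section defs

variable {K : Type} [Field K] {X : Type} [AddCommGroup X] [Module K X]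
  {Γ : Type} [Group Γ] (R : Representation K Γ X) (χ : Γ →* K) {I : Type} (E : I → Submodule K X)

/-- The eigenvalues of `γ` on `E i` are divided into two nonempty sets, `A` and its complement, both
stable under the duality `α ↦ χ(γ) / α`, such that for `α` in `A` and `β` in the complement at
least one of the two eigenspaces is one-dimensional, `β / α` is the quotient of no other pair of
eigenvalues on `E i` except the dual pair, and geometric progressions of length three with the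
quotient `β / α` in the set of eigenvalues of `γ` on some `E j` are self-dual, with
one-dimensional outer eigenspaces. -/
def SplitsIsolatedSp (γ : Γ) (i : I) : Prop :=
  ∃ A : Set K, (∃ α ∈ A, eig R γ (E i) α ≠ ⊥) ∧ (∃ β ∉ A, eig R γ (E i) β ≠ ⊥) ∧
    (∀ α, eig R γ (E i) α ≠ ⊥ → (α ∈ A ↔ χ γ * α⁻¹ ∈ A)) ∧
    ∀ α ∈ A, ∀ β ∉ A, eig R γ (E i) α ≠ ⊥ → eig R γ (E i) β ≠ ⊥ →
      (finrank K (eig R γ (E i) α) = 1 ∨ finrank K (eig R γ (E i) β) = 1) ∧
      (∀ α', eig R γ (E i) α' ≠ ⊥ → eig R γ (E i) (α' * (β * α⁻¹)) ≠ ⊥ →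
        α' = α ∨ α' * β = χ γ) ∧
      ∀ j α', eig R γ (E j) α' ≠ ⊥ → eig R γ (E j) (α' * (β * α⁻¹)) ≠ ⊥ →
        eig R γ (E j) (α' * (β * α⁻¹) * (β * α⁻¹)) ≠ ⊥ →
        finrank K (eig R γ (E j) α') = 1 ∧ α' * (α' * (β * α⁻¹) * (β * α⁻¹)) = χ γ

/-- For each `i` there is an element `γ` of finite order which preserves all `E j` and whose
eigenvalues on `E i` split in an isolated way. -/
def HasIsolatedPairs : Prop :=
  ∀ i, ∃ γ : Γ, (∃ k : ℕ, 0 < k ∧ R γ ^ k = 1) ∧ (∀ j, ∀ u ∈ E j, R γ u ∈ E j) ∧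
    SplitsIsolatedSp R χ E γ i

/-- No `E i` is isotropic. -/
def NotIsotropic (ω : X →ₗ[K] X →ₗ[K] K) : Prop := ∀ i, ∃ u ∈ E i, ∃ v ∈ E i, ω u v ≠ 0

end defs

variable {K : Type} [Field K] [CharZero K] [IsAlgClosed K] {X : Type} [AddCommGroup X]
  [Module K X] [FiniteDimensional K X] {Γ : Type} [Group Γ] {R : Representation K Γ X}
  {χ : Γ →* K} {I : Type} {E : I → Submodule K X}

section dual

variable {ω : X →ₗ[K] X →ₗ[K] K} (halt : ∀ v, ω v v = 0)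
  (hωR : ∀ g u v, ω (R g u) (R g v) = χ g * ω u v) {γ : Γ} {k : ℕ} (hk : 0 < k)
  (hγ : R γ ^ k = 1) {U : Submodule K X} (hγU : ∀ u ∈ U, R γ u ∈ U)
  (hnd : ∀ u ∈ U, (∀ v ∈ U, ω u v = 0) → u = 0)

include hωR in
theorem pair_zero {α β : K} (h : α * β ≠ χ γ) {u v : X} (hu : u ∈ eig R γ U α)
    (hv : v ∈ eig R γ U β) : ω u v = 0 := by
  have h1 := hωR γ u v
  rw [(mem_eig.1 hu).2, (mem_eig.1 hv).2, map_smul, map_smul, LinearMap.smul_apply, smul_eq_mul,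
    smul_eq_mul] at h1
  have h2 : (α * β - χ γ) * ω u v = 0 := by linear_combination h1
  exact (mul_eq_zero.1 h2).resolve_left (sub_ne_zero.2 h)

include hωR hk hγ hγU hnd in
/-- A vector of an eigenspace which is orthogonal to the dual eigenspace is zero. -/
theorem zero_of_dual {α : K} {u : X} (hu : u ∈ eig R γ U α)
    (h : ∀ β, α * β = χ γ → ∀ w ∈ eig R γ U β, ω u w = 0) : u = 0 := by
  refine hnd u (mem_eig.1 hu).1 fun v hv => ?_
  obtain ⟨f, hf, hfs⟩ := exists_comp hk hγ hγU hv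
  rw [← hfs, Finsupp.sum, map_sum]
  refine Finset.sum_eq_zero fun β _ => ?_
  by_cases h1 : α * β = χ γ
  · exact h β h1 _ (hf β)
  · exact pair_zero hωR h1 hu (hf β)

include hωR hk hγ hγU hnd in
theorem finrank_dual_le {α : K} (hα : α ≠ 0) :
    finrank K (eig R γ U α) ≤ finrank K (eig R γ U (χ γ * α⁻¹)) := by
  have h1 : Function.Injective (((ω.compl₁₂ (eig R γ U α).subtype
      (eig R γ U (χ γ * α⁻¹)).subtype)) : eig R γ U α →ₗ[K] _ →ₗ[K] K) := by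
    rw [injective_iff_map_eq_zero]
    rintro ⟨u, hu⟩ hu0
    apply Subtype.ext
    refine zero_of_dual hωR hk hγ hγU hnd hu fun β hβ w hw => ?_
    have h2 : β = χ γ * α⁻¹ := by
      rw [← hβ]
      field_simp
    subst h2
    exact congrArg (fun l : eig R γ U (χ γ * α⁻¹) →ₗ[K] K => l ⟨w, hw⟩) hu0
  have h2 := LinearMap.finrank_le_finrank_of_injective h1
  rwa [Module.finrank_linearMap_self] at h2

include hωR hk hγ hγU hnd in
theorem finrank_dual {α : K} (hα : α ≠ 0) :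
    finrank K (eig R γ U (χ γ * α⁻¹)) = finrank K (eig R γ U α) := by
  refine le_antisymm ?_ (finrank_dual_le hωR hk hγ hγU hnd hα)
  have hχ : χ γ ≠ 0 := χne γ
  have h1 := finrank_dual_le hωR hk hγ hγU hnd (α := χ γ * α⁻¹)
    (mul_ne_zero hχ (inv_ne_zero hα))
  have h2 : χ γ * (χ γ * α⁻¹)⁻¹ = α := by field_simp
  rwa [h2] at h1

include halt hωR hk hγ hγU hnd in
/-- The square of the average is zero if all chains are self-dual. -/
theorem sq_zero_of_dual {Y : End K X} (hY : Y ∈ lieT R χ) (hYU : ∀ u ∈ U, Y u ∈ U) {ν : K}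
    (hν : ν ^ k = 1) (hν0 : ν ≠ 0)
    (h : ∀ α, eig R γ U α ≠ ⊥ → eig R γ U (α * ν) ≠ ⊥ → eig R γ U (α * ν * ν) ≠ ⊥ →
      finrank K (eig R γ U α) = 1 ∧ α * (α * ν * ν) = χ γ) :
    ∀ u ∈ U, avg R γ k ν Y (avg R γ k ν Y u) = 0 := by
  intro u hu
  have hγU' := inv_stable hk hγ hγU
  have hN := avg_mem (R := R) (χ := χ) γ k ν hY
  have hsk := lieT_sp R χ ω hωR hN
  rw [← part_univ hk hγ hγU, part] at hu
  induction hu using Submodule.iSup_induction' with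
  | mem α u hu =>
    by_cases h0 : avg R γ k ν Y u = 0
    · rw [h0, map_zero]
    have hu0 : u ≠ 0 := by
      rintro rfl
      exact h0 (map_zero _)
    have h1 : eig R γ U α ≠ ⊥ := by
      intro h2
      rw [h2, Submodule.mem_bot] at hu
      exact hu0 hu
    have h3 := avg_maps hγ hγU hγU' hYU hν hν0 hu
    have h2 : eig R γ U (α * ν) ≠ ⊥ := by
      intro h2
      apply h0
      rwa [h2, Submodule.mem_bot] at h3
    have h4 := avg_maps hγ hγU hγU' hYU hν hν0 h3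
    by_cases h5 : eig R γ U (α * ν * ν) = ⊥
    · rwa [h5, Submodule.mem_bot] at h4
    obtain ⟨h6, h7⟩ := h α h1 h2 h5
    refine zero_of_dual hωR hk hγ hγU hnd h4 fun β hβ w hw => ?_
    have h8 : β = α := by
      have h9 : α * ν * ν * (β - α) = 0 := by linear_combination hβ - h7
      exact sub_eq_zero.1 ((mul_eq_zero.1 h9).resolve_left (eig_ne h5))
    subst h8
    obtain ⟨c, hc⟩ := (finrank_eq_one_iff_of_nonzero' (⟨u, hu⟩ : eig R γ U α)
      (fun h => hu0 (congrArg Subtype.val h))).1 h6 ⟨w, hw⟩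
    have hc' : c • u = w := congrArg Subtype.val hc
    have h9 := hsk (avg R γ k ν Y u) u
    rw [halt, add_zero] at h9
    rw [← hc', map_smul, h9, smul_zero]
  | zero => rw [map_zero, map_zero]
  | add u v _ _ h1 h2 => rw [map_add, map_add, h1, h2, add_zero]

include hωR hk hγ hγU hnd in
theorem dualChain_inv {ν : K} (hν0 : ν ≠ 0)
    (h : ∀ α, eig R γ U α ≠ ⊥ → eig R γ U (α * ν) ≠ ⊥ → eig R γ U (α * ν * ν) ≠ ⊥ →
      finrank K (eig R γ U α) = 1 ∧ α * (α * ν * ν) = χ γ) :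
    ∀ α, eig R γ U α ≠ ⊥ → eig R γ U (α * ν⁻¹) ≠ ⊥ → eig R γ U (α * ν⁻¹ * ν⁻¹) ≠ ⊥ →
      finrank K (eig R γ U α) = 1 ∧ α * (α * ν⁻¹ * ν⁻¹) = χ γ := by
  intro α h1 h2 h3
  have h4 := h (α * ν⁻¹ * ν⁻¹) h3
  rw [inv_mul_cancel_right₀ hν0, inv_mul_cancel_right₀ hν0] at h4
  obtain ⟨h5, h6⟩ := h4 h2 h1
  have hα := eig_ne h1
  have h7 : α * ν⁻¹ * ν⁻¹ = χ γ * α⁻¹ := by
    rw [← h6]
    field_simp
  refine ⟨?_, by rw [mul_comm]; exact h6⟩
  rw [← finrank_dual hωR hk hγ hγU hnd hα, ← h7]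
  exact h5

end dual

/-- Isolated pairs give a nilpotent element of the Lie algebra, of rank at most two on `E i`. -/
theorem iso_N2 {ω : X →ₗ[K] X →ₗ[K] K} (halt : ∀ v, ω v v = 0)
    (hωR : ∀ g u v, ω (R g u) (R g v) = χ g * ω u v)
    (hndE : ∀ j, ∀ u ∈ E j, (∀ v ∈ E j, ω u v = 0) → u = 0) (hE : ⨆ j, E j = ⊤)
    (hst : ∀ j, ∀ Y ∈ lieT R χ, ∀ u ∈ E j, Y u ∈ E j) {γ : Γ} {k : ℕ} (hk : 0 < k)
    (hγ : R γ ^ k = 1) (hγE : ∀ j, ∀ u ∈ E j, R γ u ∈ E j) (i : I) (hSI : SI R (E i))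
    (hns : ∃ Y ∈ lieT R χ, ¬∃ a : K, ∀ u ∈ E i, Y u = a • u)
    (hiso : SplitsIsolatedSp R χ E γ i) :
    ∃ N ∈ lieT R χ, N * N = 0 ∧ (E i).map N ≠ ⊥ ∧ finrank K ((E i).map N) ≤ 2 := by
  obtain ⟨A, hA, hB, hdual, h1⟩ := hiso
  have hγE' : ∀ j, ∀ u ∈ E j, R γ⁻¹ u ∈ E j := fun j => inv_stable hk hγ (hγE j)
  have hχ : χ γ ≠ 0 := χne γ
  -- the rank
  have hrk : ∀ α ∈ A, ∀ β ∉ A, eig R γ (E i) α ≠ ⊥ → eig R γ (E i) β ≠ ⊥ → ∀ T : End K X,
      (∀ u ∈ E i, T u ∈ E i) →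
      (finrank K ((part R γ (E i) A).map (avg R γ k (β * α⁻¹) T)) ≤ 1 ∧
      finrank K ((part R γ (E i) Aᶜ).map (avg R γ k (β * α⁻¹) T)) ≤ 1) ∧
      (finrank K ((part R γ (E i) A).map (avg R γ k (α * β⁻¹) T)) ≤ 1 ∧
      finrank K ((part R γ (E i) Aᶜ).map (avg R γ k (α * β⁻¹) T)) ≤ 1) := by
    intro α hα β hβ hα0 hβ0 T hT
    obtain ⟨hl, huniq, -⟩ := h1 α hα β hβ hα0 hβ0
    have hα1 := eig_ne hα0
    have hβ1 := eig_ne hβ0
    have hαk := eig_root hγ hα0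
    have hβk := eig_root hγ hβ0
    have hν : (β * α⁻¹) ^ k = 1 := by rw [mul_pow, inv_pow, hαk, hβk, inv_one, mul_one]
    have hν' : (α * β⁻¹) ^ k = 1 := by rw [mul_pow, inv_pow, hαk, hβk, inv_one, mul_one]
    have hν0 : β * α⁻¹ ≠ 0 := mul_ne_zero hβ1 (inv_ne_zero hα1)
    have hν0' : α * β⁻¹ ≠ 0 := mul_ne_zero hα1 (inv_ne_zero hβ1)
    have hdα := finrank_dual hωR hk hγ (hγE i) (hndE i) hα1
    have hdβ := finrank_dual hωR hk hγ (hγE i) (hndE i) hβ1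
    have hβA : χ γ * β⁻¹ ∉ A := fun h => hβ ((hdual β hβ0).2 h)
    have hαA : χ γ * α⁻¹ ∈ A := (hdual α hα0).1 hα
    have hsol : ∀ x y : K, y ≠ 0 → x * y = χ γ → x = χ γ * y⁻¹ := by
      intro x y hy h
      rw [← h, mul_inv_cancel_right₀ hy]
    have huniq' : ∀ α', eig R γ (E i) α' ≠ ⊥ → eig R γ (E i) (α' * (α * β⁻¹)) ≠ ⊥ →
        α' = β ∨ α' = χ γ * α⁻¹ := by
      intro α' h2 h3
      have e3 : α' * (α * β⁻¹) * (β * α⁻¹) = α' := by field_simp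
      rcases huniq (α' * (α * β⁻¹)) h3 (by rwa [e3]) with h4 | h4
      · left
        rw [← e3, h4]
        field_simp
      · right
        refine hsol _ _ hα1 ?_
        rw [← h4]
        field_simp
    refine ⟨⟨?_, ?_⟩, ?_, ?_⟩
    · refine finrank_part hγ (hγE i) (hγE' i) hT hν hν0 (a := α) (fun α' hα' h2 h3 => ?_) ?_
      · rcases huniq α' h2 h3 with h4 | h4
        · exact h4
        · exact absurd hα' (by rw [hsol _ _ hβ1 h4]; exact hβA)
      · rw [show α * (β * α⁻¹) = β by field_simp]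
        rcases hl with h | h
        · exact Or.inl h.le
        · exact Or.inr h.le
    · refine finrank_part hγ (hγE i) (hγE' i) hT hν hν0 (a := χ γ * β⁻¹) (fun α' hα' h2 h3 => ?_) ?_
      · rcases huniq α' h2 h3 with h4 | h4
        · exact absurd (by rw [h4]; exact hα) hα'
        · exact hsol _ _ hβ1 h4
      · rw [show χ γ * β⁻¹ * (β * α⁻¹) = χ γ * α⁻¹ by field_simp, hdα, hdβ]
        rcases hl with h | h
        · exact Or.inr h.le
        · exact Or.inl h.le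
    · refine finrank_part hγ (hγE i) (hγE' i) hT hν' hν0' (a := χ γ * α⁻¹)
        (fun α' hα' h2 h3 => ?_) ?_
      · rcases huniq' α' h2 h3 with h4 | h4
        · exact absurd hα' (by rw [h4]; exact hβ)
        · exact h4
      · rw [show χ γ * α⁻¹ * (α * β⁻¹) = χ γ * β⁻¹ by field_simp, hdα, hdβ]
        rcases hl with h | h
        · exact Or.inl h.le
        · exact Or.inr h.le
    · refine finrank_part hγ (hγE i) (hγE' i) hT hν' hν0' (a := β) (fun α' hα' h2 h3 => ?_) ?_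
      · rcases huniq' α' h2 h3 with h4 | h4
        · exact h4
        · exact absurd (by rw [h4]; exact hαA) hα'
      · rw [show β * (α * β⁻¹) = α by field_simp]
        rcases hl with h | h
        · exact Or.inr h.le
        · exact Or.inl h.le
  obtain ⟨α, hα, β, hβ, hα0, hβ0, Y, hY, hor⟩ := split' hSI (lieT R χ)
    (fun g Y hY => lieT_conj R χ g hY) (hst i) hns hk hγ (hγE i) (hγE' i) A hA hB
    (fun α hα β hβ h2 h3 T hT P hP => by
      have h4 := hrk α hα β hβ h2 h3 T hT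
      rcases hP with rfl | rfl
      · exact ⟨h4.1.1, h4.2.1⟩
      · exact ⟨h4.1.2, h4.2.2⟩)
  have hα1 := eig_ne hα0
  have hβ1 := eig_ne hβ0
  have hαk := eig_root hγ hα0
  have hβk := eig_root hγ hβ0
  have hν : (β * α⁻¹) ^ k = 1 := by rw [mul_pow, inv_pow, hαk, hβk, inv_one, mul_one]
  have hν' : (α * β⁻¹) ^ k = 1 := by rw [mul_pow, inv_pow, hαk, hβk, inv_one, mul_one]
  have hν0 : β * α⁻¹ ≠ 0 := mul_ne_zero hβ1 (inv_ne_zero hα1)
  have hν0' : α * β⁻¹ ≠ 0 := mul_ne_zero hα1 (inv_ne_zero hβ1)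
  have hch := fun j => (h1 α hα β hβ hα0 hβ0).2.2 j
  have h4 := hrk α hα β hβ hα0 hβ0 Y (hst i Y hY)
  have hsq : ∀ ν : K, ν ^ k = 1 → ν ≠ 0 → (∀ j α', eig R γ (E j) α' ≠ ⊥ →
      eig R γ (E j) (α' * ν) ≠ ⊥ → eig R γ (E j) (α' * ν * ν) ≠ ⊥ →
      finrank K (eig R γ (E j) α') = 1 ∧ α' * (α' * ν * ν) = χ γ) →
      avg R γ k ν Y * avg R γ k ν Y = 0 := by
    intro ν h2 h3 h4
    rw [← LinearMap.ker_eq_top, eq_top_iff, ← hE, iSup_le_iff]
    intro j u hu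
    rw [LinearMap.mem_ker, Module.End.mul_apply]
    exact sq_zero_of_dual halt hωR hk hγ (hγE j) (hndE j) hY (hst j Y hY) h2 h3 (h4 j) u hu
  have hne : ∀ ν : K, (∃ u ∈ E i, avg R γ k ν Y u ≠ 0) → (E i).map (avg R γ k ν Y) ≠ ⊥ := by
    rintro ν ⟨u, hu, hu0⟩ h4
    apply hu0
    have h5 : avg R γ k ν Y u ∈ (E i).map (avg R γ k ν Y) := Submodule.mem_map_of_mem hu
    rwa [h4, Submodule.mem_bot] at h5
  have htwo : ∀ ν : K, finrank K ((part R γ (E i) A).map (avg R γ k ν Y)) ≤ 1 →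
      finrank K ((part R γ (E i) Aᶜ).map (avg R γ k ν Y)) ≤ 1 →
      finrank K ((E i).map (avg R γ k ν Y)) ≤ 2 := by
    intro ν h2 h3
    have h5 : (E i).map (avg R γ k ν Y) ≤ (part R γ (E i) A).map (avg R γ k ν Y) ⊔
        (part R γ (E i) Aᶜ).map (avg R γ k ν Y) := by
      rintro _ ⟨u, hu, rfl⟩
      obtain ⟨a, ha, b, hb, rfl⟩ := Submodule.mem_sup.1 (sup_part (A := A) hk hγ (hγE i) hu)
      rw [map_add]
      exact Submodule.add_mem_sup (Submodule.mem_map_of_mem ha) (Submodule.mem_map_of_mem hb)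
    have h6 := Submodule.finrank_mono h5
    have h7 := Submodule.finrank_add_le_finrank_add_finrank
      ((part R γ (E i) A).map (avg R γ k ν Y)) ((part R γ (E i) Aᶜ).map (avg R γ k ν Y))
    omega
  rcases hor with hor | hor
  · exact ⟨_, avg_mem γ k _ hY, hsq _ hν hν0 hch, hne _ hor, htwo _ h4.1.1 h4.1.2⟩
  · refine ⟨_, avg_mem γ k _ hY, hsq _ hν' hν0' ?_, hne _ hor, htwo _ h4.2.1 h4.2.2⟩
    intro j
    have h2 := dualChain_inv hωR hk hγ (hγE j) (hndE j) hν0 (hch j)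
    rwa [mul_inv, inv_inv, mul_comm β⁻¹] at h2

/-- The main theorem over an algebraically closed field. -/
theorem iso_pt (ω : X →ₗ[K] X →ₗ[K] K) (halt : ∀ v, ω v v = 0)
    (hnd : ∀ u, (∀ v, ω u v = 0) → u = 0)
    (hωR : ∀ g u v, ω (R g u) (R g v) = χ g * ω u v) (hss : HasProj R)
    (hE : SumOfSI R E) (hni : NotIsotropic E ω) (hiso : HasIsolatedPairs R χ E)
    (hF : HasFrobenii R E)
    {m : ℕ} (φ : MultilinearMap K (fun _ : Fin m × Fin 2 => X) K) (hφ : IsTate R χ m φ) :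
    φ ∈ Submodule.span K (PT R χ m) := by
  have hst : ∀ j, ∀ Y ∈ lieT R χ, ∀ u ∈ E j, Y u ∈ E j := fun j Y hY =>
    lieT_stable ω hnd hωR hss (hE.1 j).2.1 hY
  have hndE : ∀ j, ∀ u ∈ E j, (∀ v ∈ E j, ω u v = 0) → u = 0 := fun j =>
    du_left (hE.1 j) (hE.1 j).2.1 (Δ := ⊤) inferInstance (hni j)
      (fun g _ u _ v _ => hωR g u v)
  have hN : ∀ i, ∃ N ∈ lieT R χ, N * N = 0 ∧ (E i).map N ≠ ⊥ ∧ finrank K ((E i).map N) ≤ 2 := by
    intro i
    obtain ⟨γ, ⟨k, hk, hγ⟩, hγE, h1⟩ := hiso i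
    exact iso_N2 halt hωR hndE hE.2 hst hk hγ hγE i (hE.1 i) (nonscalar_of_frob hF i) h1
  have haltd : ∀ U, SI R U → AltDual R χ U := by
    intro U hU
    obtain ⟨i, Δ, hΔ, T, hTU, h0, hT⟩ := exists_iso' hss hE hU
    have hmap := tw_map hU (hE.1 i) hΔ hTU h0 hT
    obtain ⟨u, hu, v, hv, huv⟩ := hni i
    rw [← hmap] at hu hv
    obtain ⟨u', hu', rfl⟩ := hu
    obtain ⟨v', hv', rfl⟩ := hv
    refine ⟨Δ, hΔ, ω.compl₁₂ T T, ⟨u', hu', v', hv', huv⟩, fun w _ => ?_, fun g hg w hw w' hw' => ?_⟩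
    · rw [LinearMap.compl₁₂_apply, halt]
    · rw [LinearMap.compl₁₂_apply, LinearMap.compl₁₂_apply, hT g hg w hw, hT g hg w' hw', one_smul,
        one_smul, hωR]
  have hsd : ∀ U, SI R U → Du R χ U U := by
    intro U hU
    obtain ⟨Δ, hΔ, B, h0, -, hB⟩ := haltd U hU
    exact ⟨Δ, hΔ, B, h0, hB⟩
  have h2 : ∀ i, 2 ≤ finrank K (E i) := by
    intro i
    obtain ⟨γ, -, -, ⟨A, ⟨α, hα, hα0⟩, ⟨β, hβ, hβ0⟩, -, -⟩⟩ := hiso i
    exact two_le_finrank (α := α) (β := β) (fun h => hβ (by rw [← h]; exact hα)) hα0 hβ0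
  have hdim : ∀ U, SI R U → 2 ≤ finrank K U := by
    intro U hU
    obtain ⟨i, Δ, hΔ, T, hTU, h0, hT⟩ := exists_iso' hss hE hU
    obtain ⟨e, -⟩ := tw_equiv hU (hE.1 i) hΔ hTU h0 hT
    rw [e.finrank_eq]
    exact h2 i
  refine detProd_pt hsd φ (Pool.Agent.TH118.CU.nil_det ω hnd hωR ?_ hss ?_ ?_ φ hφ)
  · intro U hU _
    obtain ⟨i, hi⟩ := exists_iso' hss hE hU
    obtain ⟨N, hN1, hN2, hN3, hN4⟩ := hN i
    have hrk := rank_transfer ω hnd hωR hss hU (hE.1 i) hi hN1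
    have hne : U.map N ≠ ⊥ := by
      intro h0
      apply hN3
      rw [← Submodule.finrank_eq_zero (R := K), hrk, h0, finrank_bot]
    rw [hrk] at hN4
    exact ⟨N, hN1, hN2, Or.inr ⟨hne, haltd U hU, coreProp_nil hU hN1 hN2 hne hN4⟩⟩
  · intro U hU h1
    have h3 := hdim U hU
    omega
  · intro U U' hU _ _ hnsd
    exact absurd (hsd U hU) hnsd

end Pool.Agent.TH118.IS
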